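import Pool.Agent.H97R2.LPB.Props

/-!
# Certificate: `Phi + 2 Ux ≤ -6.65` on `[2, 3.87]`

`P(v) = 2 Pc 1 v - Pc 5 v - π v` is decreasing, `2 Ux` is a sum of `Ψ`; on every cell
`[k/32, (k+1)/32]` one kernel computation.
-/

open Polynomial Filter Topology MeasureTheory Pool.Agent.H337R2 Pool.Agent.LP

namespace Pool.Agent.LPB

namespace C2b

noncomputable section

/-- `P` -/
def PP (t : ℝ) : ℝ := 2 * Pc 1 t - Pc 5 t - Real.pi * t

lemma PP_anti (h : S_shape) : AntitoneOn PP (Set.Ioi 0) := by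
  have hd : ∀ v : ℝ, 0 < v → HasDerivAt PP
      (2 * Real.arctan (1 / v) - Real.arctan (5 / v) - Real.pi) v := fun v hv => h.1 v hv
  refine antitoneOn_of_deriv_nonpos (convex_Ioi 0) ?_ ?_ ?_
  · intro v hv
    exact (hd v hv).continuousAt.continuousWithinAt
  · intro v hv
    rw [interior_Ioi] at hv
    exact (hd v hv).differentiableAt.differentiableWithinAt
  · intro v hv
    rw [interior_Ioi] at hv
    have hv' : 0 < v := hv
    rw [(hd v hv).deriv]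
    have h1 : Real.arctan (1 / v) ≤ Real.arctan (5 / v) := by
      apply Real.arctan_mono
      exact div_le_div_of_nonneg_right (by norm_num) hv'.le
    have h2 : Real.arctan (1 / v) < Real.pi / 2 := Real.arctan_lt_pi_div_two _
    have h3 := Real.pi_pos
    linarith

lemma atan5 (x : ℝ) (hx : 0 ≤ x) : Real.arctan x ≤ x - x ^ 3 / 3 + x ^ 5 / 5 := by
  have hd : ∀ y : ℝ, HasDerivAt (fun y : ℝ => y - y ^ 3 / 3 + y ^ 5 / 5 - Real.arctan y)
      (1 - y ^ 2 + y ^ 4 - 1 / (1 + y ^ 2)) y := by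
    intro y
    have h1 := (((hasDerivAt_id y).sub ((hasDerivAt_pow 3 y).div_const 3)).add
      ((hasDerivAt_pow 5 y).div_const 5)).sub (Real.hasDerivAt_arctan y)
    refine h1.congr_deriv ?_
    norm_num
  have hm : Monotone (fun y : ℝ => y - y ^ 3 / 3 + y ^ 5 / 5 - Real.arctan y) := by
    refine monotone_of_deriv_nonneg (fun y => (hd y).differentiableAt) fun y => ?_
    rw [(hd y).deriv]
    have hp : 0 < 1 + y ^ 2 := by positivity
    have e : 1 - y ^ 2 + y ^ 4 - 1 / (1 + y ^ 2) = y ^ 6 / (1 + y ^ 2) := by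
      field_simp
      ring
    rw [e]
    positivity
  have := hm hx
  simp only [Real.arctan_zero] at this
  norm_num at this
  linarith

lemma atan13 (x : ℝ) (hx : 0 ≤ x) : Real.arctan x ≤
    x - x ^ 3 / 3 + x ^ 5 / 5 - x ^ 7 / 7 + x ^ 9 / 9 - x ^ 11 / 11 + x ^ 13 / 13 := by
  have hd : ∀ y : ℝ, HasDerivAt (fun y : ℝ => y - y ^ 3 / 3 + y ^ 5 / 5 - y ^ 7 / 7 + y ^ 9 / 9
      - y ^ 11 / 11 + y ^ 13 / 13 - Real.arctan y)
      (1 - y ^ 2 + y ^ 4 - y ^ 6 + y ^ 8 - y ^ 10 + y ^ 12 - 1 / (1 + y ^ 2)) y := by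
    intro y
    have h1 := (((((((hasDerivAt_id y).sub ((hasDerivAt_pow 3 y).div_const 3)).add
      ((hasDerivAt_pow 5 y).div_const 5)).sub ((hasDerivAt_pow 7 y).div_const 7)).add
      ((hasDerivAt_pow 9 y).div_const 9)).sub ((hasDerivAt_pow 11 y).div_const 11)).add
      ((hasDerivAt_pow 13 y).div_const 13)).sub (Real.hasDerivAt_arctan y)
    refine h1.congr_deriv ?_
    norm_num
  have hm : Monotone (fun y : ℝ => y - y ^ 3 / 3 + y ^ 5 / 5 - y ^ 7 / 7 + y ^ 9 / 9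
      - y ^ 11 / 11 + y ^ 13 / 13 - Real.arctan y) := by
    refine monotone_of_deriv_nonneg (fun y => (hd y).differentiableAt) fun y => ?_
    rw [(hd y).deriv]
    have hp : 0 < 1 + y ^ 2 := by positivity
    have e : 1 - y ^ 2 + y ^ 4 - y ^ 6 + y ^ 8 - y ^ 10 + y ^ 12 - 1 / (1 + y ^ 2)
        = y ^ 14 / (1 + y ^ 2) := by
      field_simp
      ring
    rw [e]
    positivity
  have := hm hx
  simp only [Real.arctan_zero] at this
  norm_num at this
  linarith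

end

/-- the four bricks -/
def pe : List (ℤ × ℤ) := [(192, -30), (-192, 30), (160, -96), (-160, 96)]

lemma Ux_EF (v : ℝ) : 2 * Ux v = EF 165 32 pe v := by
  have e1 : v - (((-30 : ℤ) : ℝ)) / ((32 : ℕ) : ℝ) = v + 15 / 16 := by push_cast; ring
  have e2 : v - (((30 : ℤ) : ℝ)) / ((32 : ℕ) : ℝ) = v - 15 / 16 := by push_cast; ring
  have e3 : v - (((-96 : ℤ) : ℝ)) / ((32 : ℕ) : ℝ) = v + 3 := by push_cast; ring
  have e4 : v - (((96 : ℤ) : ℝ)) / ((32 : ℕ) : ℝ) = v - 3 := by push_cast; ring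
  unfold pe
  rw [EF_cons, EF_cons, EF_cons, EF_cons, EF_nil]
  simp only [e1, e2, e3, e4]
  unfold Ux
  push_cast
  ring

/-- rational part of the upper bound of `P (k / 32)` -/
def ratP (k : ℕ) : ℚ :=
  let x : ℚ := (32 : ℚ) / k
  let y : ℚ := (k : ℚ) / 160
  3 + 2 * (1 - x ^ 2 / 3 + x ^ 4 / 5)
    + 5 * (y ^ 2 - y ^ 4 / 3 + y ^ 6 / 5 - y ^ 8 / 7 + y ^ 10 / 9 - y ^ 12 / 11 + y ^ 14 / 13)
    - 3 / 2 * (314159 / 100000) * (k / 32)

/-- upper bound of `5280 * 10 ^ 12 * P (k / 32)` -/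
def Pup (k : ℕ) : ℚ :=
  5280 * ((lnA (1024 + k ^ 2) : ℚ) - (lnA 1024 : ℚ) + 40000)
    - 13200 * ((lnA (25600 + k ^ 2) : ℚ) - (lnA 1024 : ℚ) - 40000)
    + 5280000000000000 * ratP k

/-- the check on `[k / 32, (k + 1) / 32]` -/
def ck (k : ℕ) : Bool :=
  cellOK 32 pe (Int.floor (-35112000000000000 - Pup k)) k (k + 1)

lemma ck_all : ((List.range 60).all fun i => ck (64 + i)) = true := by
  decide +kernel

lemma PP_le (k : ℕ) (hk : 1 ≤ k) (hk2 : k ≤ 900) :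
    5280000000000000 * PP ((k : ℝ) / 32) ≤ ((Pup k : ℚ) : ℝ) := by
  have hkR : (1 : ℝ) ≤ (k : ℝ) := by exact_mod_cast hk
  have hk0 : (0 : ℝ) < (k : ℝ) := by linarith
  have hv : (0 : ℝ) < (k : ℝ) / 32 := by positivity
  have hsq : k ^ 2 ≤ 810000 := by nlinarith
  have h1 := lnA_spec (1024 + k ^ 2) (by omega) (by norm_num; omega)
  have h2 := lnA_spec (25600 + k ^ 2) (by omega) (by norm_num; omega)
  have h3 := lnA_spec 1024 (by omega) (by norm_num)
  rw [abs_le] at h1 h2 h3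
  have l1 : Real.log (1 ^ 2 + ((k : ℝ) / 32) ^ 2)
      = Real.log ((1024 + k ^ 2 : ℕ) : ℝ) - Real.log ((1024 : ℕ) : ℝ) := by
    rw [← Real.log_div (by positivity) (by norm_num)]
    congr 1
    push_cast
    ring
  have l2 : Real.log (5 ^ 2 + ((k : ℝ) / 32) ^ 2)
      = Real.log ((25600 + k ^ 2 : ℕ) : ℝ) - Real.log ((1024 : ℕ) : ℝ) := by
    rw [← Real.log_div (by positivity) (by norm_num)]
    congr 1
    push_cast
    ring
  have a1 : Real.arctan (1 / ((k : ℝ) / 32)) ≤ (32 / (k : ℝ)) - (32 / (k : ℝ)) ^ 3 / 3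
      + (32 / (k : ℝ)) ^ 5 / 5 := by
    have e : 1 / ((k : ℝ) / 32) = 32 / (k : ℝ) := by field_simp
    rw [e]
    exact atan5 _ (by positivity)
  have a2 : Real.arctan (5 / ((k : ℝ) / 32)) = Real.pi / 2 - Real.arctan ((k : ℝ) / 160) := by
    have e : 5 / ((k : ℝ) / 32) = ((k : ℝ) / 160)⁻¹ := by field_simp; norm_num
    rw [e, Real.arctan_inv_of_pos (by positivity)]
  have a3 := atan13 ((k : ℝ) / 160) (by positivity)
  have hpi := Real.pi_gt_d6
  unfold PP Pc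
  rw [l1, l2, a2]
  set L1 := Real.log ((1024 + k ^ 2 : ℕ) : ℝ)
  set L2 := Real.log ((25600 + k ^ 2 : ℕ) : ℝ)
  set L3 := Real.log ((1024 : ℕ) : ℝ)
  set A1 := Real.arctan (1 / ((k : ℝ) / 32))
  set A2 := Real.arctan ((k : ℝ) / 160)
  have b1 : 2 * ((k : ℝ) / 32) * A1 ≤ 2 * (1 - (32 / (k : ℝ)) ^ 2 / 3 + (32 / (k : ℝ)) ^ 4 / 5) := by
    have h4 := mul_le_mul_of_nonneg_left a1 (by positivity : (0 : ℝ) ≤ 2 * ((k : ℝ) / 32))
    refine h4.trans (le_of_eq ?_)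
    field_simp
  have b2 : (k : ℝ) / 32 * A2 ≤ 5 * (((k : ℝ) / 160) ^ 2 - ((k : ℝ) / 160) ^ 4 / 3
      + ((k : ℝ) / 160) ^ 6 / 5 - ((k : ℝ) / 160) ^ 8 / 7 + ((k : ℝ) / 160) ^ 10 / 9
      - ((k : ℝ) / 160) ^ 12 / 11 + ((k : ℝ) / 160) ^ 14 / 13) := by
    have h4 := mul_le_mul_of_nonneg_left a3 hv.le
    refine h4.trans (le_of_eq ?_)
    ring
  have b3 : 3 / 2 * (314159 / 100000) * ((k : ℝ) / 32) ≤ 3 / 2 * Real.pi * ((k : ℝ) / 32) := by
    have : (314159 / 100000 : ℝ) ≤ Real.pi := by linarith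
    apply mul_le_mul_of_nonneg_right _ hv.le
    linarith
  have hP : ((Pup k : ℚ) : ℝ) = 5280 * ((lnA (1024 + k ^ 2) : ℝ) - (lnA 1024 : ℝ) + 40000)
    - 13200 * ((lnA (25600 + k ^ 2) : ℝ) - (lnA 1024 : ℝ) - 40000)
    + 5280000000000000 * (3 + 2 * (1 - (32 / (k : ℝ)) ^ 2 / 3 + (32 / (k : ℝ)) ^ 4 / 5)
      + 5 * (((k : ℝ) / 160) ^ 2 - ((k : ℝ) / 160) ^ 4 / 3
      + ((k : ℝ) / 160) ^ 6 / 5 - ((k : ℝ) / 160) ^ 8 / 7 + ((k : ℝ) / 160) ^ 10 / 9
      - ((k : ℝ) / 160) ^ 12 / 11 + ((k : ℝ) / 160) ^ 14 / 13)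
      - 3 / 2 * (314159 / 100000) * ((k : ℝ) / 32)) := by
    unfold Pup ratP
    push_cast
    ring
  rw [hP]
  simp only [lnE] at h1 h2 h3
  push_cast at h1 h2 h3
  have c1 := h1.1
  have c2 := h1.2
  have c3 := h2.1
  have c4 := h2.2
  have c5 := h3.1
  have c6 := h3.2
  linarith [b1, b2, b3, c1, c2, c3, c4, c5, c6]

lemma cell (h : S_shape) (k : ℕ) (hk : 64 ≤ k) (hk2 : k < 124) (v : ℝ) (h0 : (k : ℝ) / 32 ≤ v)
    (h1 : v ≤ ((k : ℝ) + 1) / 32) : Phi v + 2 * Ux v ≤ -(665 / 100) := by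
  have hck : ck k = true := by
    have h2 := List.all_eq_true.1 ck_all (k - 64) (List.mem_range.2 (by omega))
    rwa [show 64 + (k - 64) = k by omega] at h2
  unfold ck at hck
  set A : ℤ := Int.floor (-35112000000000000 - Pup k) with hA
  have hA1 : ((A : ℤ) : ℝ) ≤ -35112000000000000 - ((Pup k : ℚ) : ℝ) := by
    have h3 : ((A : ℤ) : ℚ) ≤ -35112000000000000 - Pup k := Int.floor_le _
    have h4 : (((A : ℤ) : ℚ) : ℝ) ≤ ((-35112000000000000 - Pup k : ℚ) : ℝ) := by exact_mod_cast h3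
    push_cast at h4
    exact h4
  have hspec := cellOK_spec (Dc := 165) (M := 32) (by norm_num) (by norm_num) (by norm_num) hck
    ((A : ℝ) / (10 ^ 12 * (165 : ℕ) * (32 : ℕ))) (le_of_eq (by field_simp)) (v * 32)
    (by push_cast; linarith) (by push_cast; linarith)
  have hv0 : 0 < v := lt_of_lt_of_le (by
    have : (64 : ℝ) ≤ k := by exact_mod_cast hk
    linarith) h0
  have e1 : v * 32 / ((32 : ℕ) : ℝ) = v := by push_cast; ring
  rw [e1, ← Ux_EF] at hspec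
  have hPhi : Phi v = PP v := by
    unfold Phi PP
    rw [abs_of_pos hv0]
  have hk0 : (0 : ℝ) < (k : ℝ) / 32 := by
    have : (64 : ℝ) ≤ k := by exact_mod_cast hk
    linarith
  have hanti : PP v ≤ PP ((k : ℝ) / 32) := PP_anti h hk0 hv0 h0
  have hP := PP_le k (by omega) (by omega)
  rw [hPhi]
  have h5 : (A : ℝ) / (10 ^ 12 * (165 : ℕ) * (32 : ℕ)) = (A : ℝ) / 5280000000000000 := by
    norm_num
  rw [h5] at hspec
  have h6 : (A : ℝ) / 5280000000000000 * 5280000000000000 = A := by field_simp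
  nlinarith

end C2b

theorem V1_cert2 (h : S_shape) : S_cert2 := by
  intro v h0 h1
  -- the cell of `v`
  have hf0 : 0 ≤ v * 32 := by linarith
  set k := Nat.floor (v * 32) with hk
  have hk1 : (k : ℝ) ≤ v * 32 := Nat.floor_le hf0
  have hk2 : v * 32 < (k : ℝ) + 1 := Nat.lt_floor_add_one _
  have hk3 : 64 ≤ k := by
    rw [hk]
    apply Nat.le_floor
    push_cast
    linarith
  have hk4 : k < 124 := by
    rw [hk, Nat.floor_lt hf0]
    push_cast
    linarith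
  exact C2b.cell h k hk3 hk4 v (by linarith) (by linarith)

end Pool.Agent.LPB
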